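import Pool.Agent.Helper24.HW.Stmts

/-! Many new edges: module EDG of the project HW. -/

set_option autoImplicit false

namespace Pool.Agent.Helper5.HW

open Equiv Equiv.Perm Pool.Agent.Helper24.HW Pool.Agent.Helper24.HWPub Pool.Agent.Helper98.Gn

/-- a label is present iff it has at least one vertex -/
theorem present_iff {C : Type} (M : LM C) (A : C) : (∃ x, M.ℓ x = A) ↔ 0 < M.pt A := by
  have : Finite (Quotient (SameCycle.setoid M.σ)) := Quotient.finite _
  unfold LM.pt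
  rw [Set.ncard_pos (Set.toFinite _)]
  constructor
  · rintro ⟨x, hx⟩
    exact ⟨Quotient.mk _ x, x, hx, rfl⟩
  · rintro ⟨O, x, hx, -⟩
    exact ⟨x, hx⟩

theorem ext_trans {C : Type} {M M' M'' : LM C} (h : M.Ext M') (h' : M'.Ext M'') : M.Ext M'' :=
  ⟨fun A => (h'.1 A).trans (h.1 A), fun A B hAB => h'.2.1 A B (h.2.1 A B hAB),
    fun hc => h'.2.2.1 (h.2.2.1 hc), fun hn => h'.2.2.2 (h.2.2.2 hn)⟩

theorem ext_present {C : Type} {M M' : LM C} (h : M.Ext M') {A : C} (hA : ∃ x, M.ℓ x = A) :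
    ∃ x, M'.ℓ x = A := by
  rw [present_iff] at hA ⊢
  rwa [h.1 A]

theorem EDG (h1 : ST_ADE) : ST_EDG := by
  intro C M L
  induction L generalizing M with
  | nil =>
    intro _
    refine ⟨M, by simp, ⟨fun _ => rfl, fun _ _ h => h, fun h => h, fun h => h⟩, ?_⟩
    intro p hp
    simp at hp
  | cons p L ih =>
    intro hL
    obtain ⟨hne, ⟨a, ha⟩, ⟨b, hb⟩⟩ := hL p (by simp)
    obtain ⟨M1, hc1, he1, ha1, hb1⟩ := h1 C M a b (by rw [ha, hb]; exact hne)
    rw [ha, hb] at ha1 hb1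
    obtain ⟨M2, hc2, he2, hadj⟩ := ih M1 (by
      intro q hq
      obtain ⟨h1, h2, h3⟩ := hL q (by simp [hq])
      exact ⟨h1, ext_present he1 h2, ext_present he1 h3⟩)
    refine ⟨M2, ?_, ext_trans he1 he2, ?_⟩
    · rw [List.length_cons]
      push_cast
      omega
    · intro q hq
      rcases List.mem_cons.1 hq with rfl | hq
      · exact ⟨he2.2.1 _ _ ha1, he2.2.1 _ _ hb1⟩
      · exact hadj q hq

end Pool.Agent.Helper5.HW
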