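import Pool.Agent.Helper24.HW.Stmts

/-! The ends of the comb-ladder: module FIX of the project HW. -/

set_option autoImplicit false

namespace Pool.Agent.Helper5.HW

open Equiv Equiv.Perm Pool.Agent.Helper24.HW Pool.Agent.Helper24.HWPub Pool.Agent.Helper98.Gn

theorem rot_fix_iff (k j t : ℕ) (x : TT k j) :
    rot k j t x = x ↔ ∃ y, x = Sum.inr (Sum.inr y) := by
  have h1 : ∀ s : Fin 3, s + 1 ≠ s := by decide
  have h2 : ∀ s : Fin 3, s + 2 ≠ s := by decide
  rcases x with ⟨i, s⟩ | ⟨i, s⟩ | y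
  · constructor
    · intro h
      have h3 : (Sum.inl (i, s + 1) : TT k j) = Sum.inl (i, s) := h
      exact absurd (congrArg Prod.snd (Sum.inl.inj h3)) (h1 s)
    · rintro ⟨y, hy⟩
      exact absurd hy (by simp)
  · constructor
    · intro h
      have h3 : (Sum.inr (Sum.inl (i, s + (if (i : ℕ) < t then 2 else 1))) : TT k j) =
          Sum.inr (Sum.inl (i, s)) := h
      have h4 := congrArg Prod.snd (Sum.inl.inj (Sum.inr.inj h3))
      simp only at h4
      by_cases hi : (i : ℕ) < t
      · rw [if_pos hi] at h4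
        exact absurd h4 (h2 s)
      · rw [if_neg hi] at h4
        exact absurd h4 (h1 s)
    · rintro ⟨y, hy⟩
      exact absurd hy (by simp)
  · constructor
    · intro _
      exact ⟨y, rfl⟩
    · intro _
      rfl

/-- the ends -/
noncomputable def endsEquiv (k j t : ℕ) : (Fin j ⊕ Fin 4) ≃ {x : TT k j // rot k j t x = x} :=
  Equiv.ofBijective (fun y => ⟨Sum.inr (Sum.inr y), (rot_fix_iff k j t _).2 ⟨y, rfl⟩⟩) (by
    constructor
    · intro y z h
      exact Sum.inr.inj (Sum.inr.inj (congrArg Subtype.val h))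
    · rintro ⟨x, hx⟩
      obtain ⟨y, rfl⟩ := (rot_fix_iff k j t x).1 hx
      exact ⟨y, rfl⟩)

theorem FIX : ST_FIX := by
  intro k j t _
  refine ⟨rot_fix_iff k j t, ?_, ?_⟩
  · rw [← Nat.card_congr (endsEquiv k j t)]
    simp
  · intro f
    exact (Equiv.sum_comp (endsEquiv k j t) (fun s => f s.1)).symm

end Pool.Agent.Helper5.HW
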