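import Pool.Agent.Helper24.HW.Stmts

/-! A handle: module HAN of the project HW. -/

set_option autoImplicit false

namespace Pool.Agent.Helper5.HW

open Equiv Equiv.Perm Pool.Agent.Helper24.HW Pool.Agent.Helper24.HWPub Pool.Agent.Helper98.Gn

theorem HAN (h1 : ST_UM) (h2 : ST_PCS) : ST_HAN := by
  intro C M hM
  classical
  obtain ⟨a⟩ := hM
  obtain ⟨⟨hc, hcn, hp⟩, -, -⟩ := h2 C (M.ℓ a) (M.ℓ a)
  obtain ⟨hchi, hpt, hadj, hconn⟩ := h1 C M (LM.tor (M.ℓ a)) a (0 : Fin 4) rfl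
  refine ⟨M.um (LM.tor (M.ℓ a)) a (0 : Fin 4) rfl, by omega, ?_, ?_, ?_, ?_⟩
  · intro A
    have h3 := hpt A
    have h4 := hp A
    by_cases hA : A = M.ℓ a
    · rw [if_pos hA] at h3 h4
      omega
    · rw [if_neg hA] at h3 h4
      omega
  · intro A B h
    exact hadj A B (Or.inl h)
  · intro h
    exact hconn h hcn
  · rintro ⟨x⟩
    exact ⟨Sum.inl x⟩

end Pool.Agent.Helper5.HW
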